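import Pool.Agent.Helper34.PN.Defs

/-!
Linear nets from a finite two-colour threshold, row CNT: most `r`-subsets are clean.
-/

namespace Pool.Agent.Helper34.PN

open Finset

/-- number of `r`-subsets which contain a given pair -/
theorem cnt_superset {α : Type} [DecidableEq α] (A p : Finset α) (r : ℕ) (hp : p ⊆ A)
    (hp2 : p.card = 2) :
    ((A.powersetCard r).filter (fun e => p ⊆ e)).card ≤ (A.card - 2).choose (r - 2) := by
  have h1 : (A.card - 2).choose (r - 2) = ((A \ p).powersetCard (r - 2)).card := by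
    rw [Finset.card_powersetCard, Finset.card_sdiff_of_subset hp, hp2]
  rw [h1]
  refine Finset.card_le_card_of_injOn (fun e => e \ p) ?_ ?_
  · intro e he
    simp only [Finset.coe_filter, Finset.mem_powersetCard, Set.mem_ofPred_eq] at he
    rw [Finset.mem_coe, Finset.mem_powersetCard]
    refine ⟨Finset.sdiff_subset_sdiff he.1.1 le_rfl, ?_⟩
    rw [Finset.card_sdiff_of_subset he.2, he.1.2, hp2]
  · intro e he e' he' h
    simp only [Finset.coe_filter, Finset.mem_powersetCard, Set.mem_ofPred_eq] at he he'
    have h2 : e \ p ∪ p = e' \ p ∪ p := congrArg (fun x => x ∪ p) h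
    rwa [Finset.sdiff_union_of_subset he.2, Finset.sdiff_union_of_subset he'.2] at h2

/-- number of `r`-subsets with at least two points in a given set -/
theorem cnt_bad {α : Type} [DecidableEq α] (A B : Finset α) (r : ℕ) :
    ((A.powersetCard r).filter (fun e => 2 ≤ (e ∩ B).card)).card ≤
      (A ∩ B).card.choose 2 * (A.card - 2).choose (r - 2) := by
  have h1 : (A.powersetCard r).filter (fun e => 2 ≤ (e ∩ B).card) ⊆
      ((A ∩ B).powersetCard 2).biUnion
        (fun p => (A.powersetCard r).filter (fun e => p ⊆ e)) := by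
    intro e he
    rw [Finset.mem_filter, Finset.mem_powersetCard] at he
    obtain ⟨p, hp, hp2⟩ := Finset.exists_subset_card_eq he.2
    rw [Finset.mem_biUnion]
    refine ⟨p, ?_, ?_⟩
    · rw [Finset.mem_powersetCard]
      exact ⟨hp.trans (Finset.inter_subset_inter_right he.1.1), hp2⟩
    · rw [Finset.mem_filter, Finset.mem_powersetCard]
      exact ⟨he.1, hp.trans Finset.inter_subset_left⟩
  refine (Finset.card_le_card h1).trans (Finset.card_biUnion_le.trans ?_)
  rw [← Finset.card_powersetCard, ← smul_eq_mul, ← Finset.sum_const]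
  refine Finset.sum_le_sum fun p hp => ?_
  rw [Finset.mem_powersetCard] at hp
  exact cnt_superset A p r (hp.1.trans Finset.inter_subset_left) hp.2

theorem many_clean {α : Type} [DecidableEq α] {ι : Type} (A : Finset α) (J : Finset ι)
    (B : ι → Finset α) (K r t : ℕ) (hr : 2 ≤ r)
    (hsmall : ∀ j ∈ J, (A ∩ B j).card ≤ t)
    (hsum : ∑ j ∈ J, (A ∩ B j).card ≤ K * A.card)
    (hA : t * K * r ^ 2 + 1 ≤ A.card) :
    A.card.choose r ≤
      2 * ((A.powersetCard r).filter (fun e => ∀ j ∈ J, (e ∩ B j).card ≤ 1)).card := by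
  classical
  set n := A.card with hn
  -- the bad subsets
  set bad := J.biUnion (fun j => (A.powersetCard r).filter (fun e => 2 ≤ (e ∩ B j).card)) with hbad
  have h1 : (A.powersetCard r) ⊆
      (A.powersetCard r).filter (fun e => ∀ j ∈ J, (e ∩ B j).card ≤ 1) ∪ bad := by
    intro e he
    rw [Finset.mem_union, Finset.mem_filter]
    by_cases h : ∀ j ∈ J, (e ∩ B j).card ≤ 1
    · exact Or.inl ⟨he, h⟩
    · right
      push Not at h
      obtain ⟨j, hj, hj2⟩ := h
      rw [hbad, Finset.mem_biUnion]
      exact ⟨j, hj, Finset.mem_filter.2 ⟨he, hj2⟩⟩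
  have h2 : n.choose r ≤
      ((A.powersetCard r).filter (fun e => ∀ j ∈ J, (e ∩ B j).card ≤ 1)).card + bad.card := by
    rw [hn, ← Finset.card_powersetCard]
    exact (Finset.card_le_card h1).trans (Finset.card_union_le _ _)
  have h3 : bad.card ≤ (∑ j ∈ J, (A ∩ B j).card.choose 2) * (n - 2).choose (r - 2) := by
    rw [Finset.sum_mul]
    exact Finset.card_biUnion_le.trans (Finset.sum_le_sum fun j _ => cnt_bad A (B j) r)
  have h4 : 2 * ∑ j ∈ J, (A ∩ B j).card.choose 2 ≤ t * (K * n) := by
    rw [Finset.mul_sum]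
    refine le_trans ?_ (Nat.mul_le_mul_left t hsum)
    rw [Finset.mul_sum]
    refine Finset.sum_le_sum fun j hj => ?_
    rw [Nat.choose_two_right]
    have h5 := hsmall j hj
    have h6 : 2 * ((A ∩ B j).card * ((A ∩ B j).card - 1) / 2) ≤
        (A ∩ B j).card * ((A ∩ B j).card - 1) := Nat.mul_div_le _ 2
    refine h6.trans ?_
    rw [mul_comm]
    exact Nat.mul_le_mul_right _ (by omega)
  -- the size of the binomial coefficients
  have h5 : 2 * bad.card ≤ n.choose r := by
    by_cases hn2 : n < 2
    · have h6 : t * K * r ^ 2 = 0 := by omega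
      have h7 : t * K = 0 := by
        rcases Nat.mul_eq_zero.1 h6 with h | h
        · exact h
        · have := pow_eq_zero_iff (two_ne_zero) |>.1 h
          omega
      have h8 : 2 * bad.card ≤ t * (K * n) * (n - 2).choose (r - 2) := by
        calc 2 * bad.card ≤ 2 * ((∑ j ∈ J, (A ∩ B j).card.choose 2) * (n - 2).choose (r - 2)) :=
              Nat.mul_le_mul_left 2 h3
          _ = (2 * ∑ j ∈ J, (A ∩ B j).card.choose 2) * (n - 2).choose (r - 2) := by ring
          _ ≤ _ := Nat.mul_le_mul_right _ h4
      rw [← mul_assoc, h7] at h8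
      simp only [zero_mul] at h8
      omega
    · push Not at hn2
      obtain ⟨n', hn'⟩ := Nat.exists_eq_add_of_le hn2
      obtain ⟨r', hr'⟩ := Nat.exists_eq_add_of_le hr
      have h6 : n.choose r * (r * (r - 1)) = n * (n - 1) * (n - 2).choose (r - 2) := by
        rw [hn', hr']
        have e1 := Nat.add_one_mul_choose_eq (n' + 1) (r' + 1)
        have e2 := Nat.add_one_mul_choose_eq n' r'
        have e3 : 2 + n' - 1 = n' + 1 := by omega
        have e4 : 2 + r' - 1 = r' + 1 := by omega
        have e5 : 2 + n' - 2 = n' := by omega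
        have e6 : 2 + r' - 2 = r' := by omega
        have e7 : 2 + n' = n' + 1 + 1 := by omega
        have e8 : 2 + r' = r' + 1 + 1 := by omega
        rw [e3, e4, e5, e6, e7, e8]
        calc (n' + 1 + 1).choose (r' + 1 + 1) * ((r' + 1 + 1) * (r' + 1))
            = ((n' + 1 + 1).choose (r' + 1 + 1) * (r' + 1 + 1)) * (r' + 1) := by ring
          _ = ((n' + 1 + 1) * (n' + 1).choose (r' + 1)) * (r' + 1) := by rw [e1]
          _ = (n' + 1 + 1) * ((n' + 1).choose (r' + 1) * (r' + 1)) := by ring
          _ = (n' + 1 + 1) * ((n' + 1) * n'.choose r') := by rw [e2]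
          _ = _ := by ring
      have hrr : 0 < r * (r - 1) := Nat.mul_pos (by omega) (by omega)
      refine Nat.le_of_mul_le_mul_right ?_ hrr
      rw [h6]
      have h7 : t * K * (r * (r - 1)) ≤ n - 1 := by
        have : t * K * (r * (r - 1)) ≤ t * K * r ^ 2 := by
          refine Nat.mul_le_mul_left _ ?_
          rw [pow_two]
          exact Nat.mul_le_mul_left _ (by omega)
        omega
      calc 2 * bad.card * (r * (r - 1))
          ≤ 2 * ((∑ j ∈ J, (A ∩ B j).card.choose 2) * (n - 2).choose (r - 2)) * (r * (r - 1)) :=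
            Nat.mul_le_mul_right _ (Nat.mul_le_mul_left 2 h3)
        _ = (2 * ∑ j ∈ J, (A ∩ B j).card.choose 2) * ((n - 2).choose (r - 2) * (r * (r - 1))) := by
            ring
        _ ≤ (t * (K * n)) * ((n - 2).choose (r - 2) * (r * (r - 1))) :=
            Nat.mul_le_mul_right _ h4
        _ = n * (t * K * (r * (r - 1))) * (n - 2).choose (r - 2) := by ring
        _ ≤ n * (n - 1) * (n - 2).choose (r - 2) :=
            Nat.mul_le_mul_right _ (Nat.mul_le_mul_left _ h7)
  omega

end Pool.Agent.Helper34.PN
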