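import Pool.Agent.Helper59.BKUea

/-! Assembly lemmas. -/

namespace Pool.Agent.Helper59.BK

universe u

open Pool.Agent.Helper83.BK (eb IsQuad RR E2)

section

variable {k : Type u} [Field k] {L : Type u} [LieRing L] [LieAlgebra k L]

/-- From a quadratic presentation of `⊤` to one of `L`. -/
lemma exists_presentation (𝓛 : ℕ → Submodule k L) (h : IsQuadratic 𝓛 ⊤) :
    ∃ (d : ℕ) (x : Fin d → L), (∀ i, x i ∈ 𝓛 1) ∧
      Function.Surjective (FreeLieAlgebra.lift k x) ∧
      ∃ S : Set (FreeLieAlgebra k (Fin d)),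
        S ⊆ (Submodule.span k {r : FreeLieAlgebra k (Fin d) |
          ∃ i j : Fin d, r = ⁅FreeLieAlgebra.of k i, FreeLieAlgebra.of k j⁆} :
            Set (FreeLieAlgebra k (Fin d))) ∧
        (FreeLieAlgebra.lift k x).ker = LieSubmodule.lieSpan k (FreeLieAlgebra k (Fin d)) S := by
  obtain ⟨d, x, hx1, hx2, S, hS1, hS2⟩ := h
  have key : FreeLieAlgebra.lift k (fun i => (x i : L)) =
      (⊤ : LieSubalgebra k L).incl.comp (FreeLieAlgebra.lift k x) := by
    apply FreeLieAlgebra.hom_ext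
    intro i
    simp
  refine ⟨d, fun i => x i, hx1, ?_, S, hS1, ?_⟩
  · intro l
    obtain ⟨z, hz⟩ := hx2 ⟨l, LieSubalgebra.mem_top l⟩
    refine ⟨z, ?_⟩
    rw [key]
    change ((FreeLieAlgebra.lift k x z : (⊤ : LieSubalgebra k L)) : L) = l
    rw [hz]
  · rw [← hS2]
    ext z
    rw [LieHom.mem_ker, LieHom.mem_ker, key]
    change ((FreeLieAlgebra.lift k x z : (⊤ : LieSubalgebra k L)) : L) = 0 ↔ _
    exact ⟨fun h => Subtype.ext h, fun h => congrArg Subtype.val h⟩

end

end Pool.Agent.Helper59.BK
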