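import Mathlib

/-!
# Definitions for Bloch-Kato Lie algebras

Graded Lie algebras `L = ⨁_{i ≥ 1} L_i` over a field `k` with finite-dimensional pieces, standard
subalgebras, quadraticity, the Bloch-Kato property, and cohomology `H^i(L) = Ext^i_{U(L)}(k, k)`
computed in the category of modules over the universal enveloping algebra.
-/

namespace Pool.Agent.Helper59.BK

universe u v

open CategoryTheory

section Lie

variable {k : Type u} [Field k] {L : Type v} [LieRing L] [LieAlgebra k L]

/-- `𝓛` is a grading of the Lie algebra `L` by positive degrees, with finite-dimensional pieces. -/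
structure IsGradedLie (𝓛 : ℕ → Submodule k L) : Prop where
  internal : DirectSum.IsInternal 𝓛
  zero : 𝓛 0 = ⊥
  lie_mem : ∀ {i j : ℕ} {x y : L}, x ∈ 𝓛 i → y ∈ 𝓛 j → ⁅x, y⁆ ∈ 𝓛 (i + j)
  finite : ∀ i, FiniteDimensional k (𝓛 i)

/-- The subalgebra `M` of `L` is quadratic: it is generated by finitely many elements
`x i` of degree `1`, and the ideal of relations between them (the kernel of the map from the free
Lie algebra on the `x i`) is generated, as an ideal, by elements of degree `2`, that is, by linear
combinations of the brackets of two generators. -/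
def IsQuadratic (𝓛 : ℕ → Submodule k L) (M : LieSubalgebra k L) : Prop :=
  ∃ (d : ℕ) (x : Fin d → M), (∀ i, (x i : L) ∈ 𝓛 1) ∧
    Function.Surjective (FreeLieAlgebra.lift k x) ∧
    ∃ S : Set (FreeLieAlgebra k (Fin d)),
      S ⊆ (Submodule.span k {r : FreeLieAlgebra k (Fin d) |
        ∃ i j : Fin d, r = ⁅FreeLieAlgebra.of k i, FreeLieAlgebra.of k j⁆} :
          Set (FreeLieAlgebra k (Fin d))) ∧
      (FreeLieAlgebra.lift k x).ker = LieSubmodule.lieSpan k (FreeLieAlgebra k (Fin d)) S

/-- `M` is a standard subalgebra: it is generated by elements of degree `1`. -/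
def IsStandardSubalgebra (𝓛 : ℕ → Submodule k L) (M : LieSubalgebra k L) : Prop :=
  ∃ S : Set L, S ⊆ 𝓛 1 ∧ M = LieSubalgebra.lieSpan k L S

/-- `L` is Bloch-Kato: `L` is quadratic and all its standard subalgebras are quadratic. -/
def IsBlochKato (𝓛 : ℕ → Submodule k L) : Prop :=
  IsQuadratic 𝓛 ⊤ ∧ ∀ M : LieSubalgebra k L, IsStandardSubalgebra 𝓛 M → IsQuadratic 𝓛 M

end Lie

section Cohomology

variable (k : Type u) [Field k] (L : Type u) [LieRing L] [LieAlgebra k L]

attribute [local instance 100] LieRing.ofAssociativeRing in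
/-- The augmentation `U(L) → k`, sending `L` to zero. -/
noncomputable def augmentation : UniversalEnvelopingAlgebra k L →ₐ[k] k :=
  UniversalEnvelopingAlgebra.lift k (0 : L →ₗ⁅k⁆ k)

/-- The trivial `U(L)`-module `k`. -/
noncomputable def trivialModule : ModuleCat.{u} (UniversalEnvelopingAlgebra k L) :=
  (ModuleCat.restrictScalars (augmentation k L).toRingHom).obj (ModuleCat.of k k)

/-- The cohomology `H^i(L) = Ext^i_{U(L)}(k, k)`. -/
abbrev cohomology (i : ℕ) : Type u := Abelian.Ext (trivialModule k L) (trivialModule k L) i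

/-- The Betti number `b_i(L) = dim_k H^i(L)`. -/
noncomputable def betti (i : ℕ) : ℕ := Module.finrank k (cohomology k L i)

/-- The cohomological dimension `cd L = sup {i : H^i(L) ≠ 0}`. -/
noncomputable def cohomologicalDimension : ℕ∞ :=
  ⨆ (i : ℕ) (_ : Nontrivial (cohomology k L i)), (i : ℕ∞)

end Cohomology

end Pool.Agent.Helper59.BK
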