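import Mathlib

/-! General dimension shifting lemmas for `Ext` over a ring. -/

namespace Pool.Agent.Helper59.BK

universe u

open CategoryTheory

section Gen

variable {A : Type u} [Ring A] {P M X : Type u} [AddCommGroup P] [Module A P]
  [AddCommGroup M] [Module A M] [AddCommGroup X] [Module A X]

lemma ext_shift [Module.Projective A P] (f : P →ₗ[A] M) (hf : Function.Surjective f) (i : ℕ)
    (h : Subsingleton (Abelian.Ext (ModuleCat.of A M) (ModuleCat.of A X) (i + 2))) :
    Subsingleton (Abelian.Ext (ModuleCat.of A (LinearMap.ker f)) (ModuleCat.of A X) (i + 1)) := by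
  have hS := LinearMap.shortExact_shortComplexKer hf
  refine ⟨fun x y => ?_⟩
  have key : ∀ x : Abelian.Ext (ModuleCat.of A (LinearMap.ker f)) (ModuleCat.of A X) (i + 1),
      x = 0 := by
    intro x
    obtain ⟨x2, hx2⟩ := Abelian.Ext.contravariant_sequence_exact₁ hS (ModuleCat.of A X) x
      (n₁ := i + 2) (by omega) (h.elim _ _)
    have hP : x2 = 0 := Abelian.Ext.eq_zero_of_projective x2
    rw [← hx2, hP]
    simp
  rw [key x, key y]

lemma ext_one (f : P →ₗ[A] M) (hf : Function.Surjective f)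
    (h : Subsingleton (Abelian.Ext (ModuleCat.of A M) (ModuleCat.of A X) 1))
    (g : LinearMap.ker f →ₗ[A] X) :
    ∃ g' : P →ₗ[A] X, ∀ x : LinearMap.ker f, g' x = g x := by
  have hS := LinearMap.shortExact_shortComplexKer hf
  obtain ⟨x2, hx2⟩ := Abelian.Ext.contravariant_sequence_exact₁ hS (ModuleCat.of A X)
    (Abelian.Ext.mk₀ (ModuleCat.ofHom g)) (n₁ := 1) (by omega) (h.elim _ _)
  obtain ⟨y, rfl⟩ := (Abelian.Ext.mk₀_bijective _ _).surjective x2
  rw [Abelian.Ext.mk₀_comp_mk₀] at hx2
  have := (Abelian.Ext.mk₀_bijective _ _).injective hx2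
  refine ⟨y.hom, fun x => ?_⟩
  exact LinearMap.congr_fun (congrArg ModuleCat.Hom.hom this) x

end Gen

end Pool.Agent.Helper59.BK
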