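import Pool.Agent.Helper59.BKSyz

/-! `dim Ext^1(k,k)` and `dim Ext^2(k,k)`. -/

namespace Pool.Agent.Helper59.BK

universe u v

open CategoryTheory TensorProduct

section Low

variable {k : Type u} [Field k] {A : Type u} [Ring A] [Algebra k A]

open scoped ModuleCat

/-- The connecting map, as a `k`-linear map. -/
noncomputable def delta {S : ShortComplex (ModuleCat.{u} A)} (hS : S.ShortExact)
    (Y : ModuleCat.{u} A) (n m : ℕ) (h : 1 + n = m) :
    Abelian.Ext S.X₁ Y n →ₗ[k] Abelian.Ext S.X₃ Y m :=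
  hS.extClass.precompOfLinear k Y h

lemma delta_surjective {S : ShortComplex (ModuleCat.{u} A)} (hS : S.ShortExact)
    (Y : ModuleCat.{u} A) (n m : ℕ) (h : 1 + n = m) [Projective S.X₂] :
    Function.Surjective (delta (k := k) hS Y n m h) := by
  obtain rfl : n + 1 = m := by omega
  exact fun x ↦ Abelian.Ext.contravariant_sequence_exact₃ hS Y x
    (Abelian.Ext.eq_zero_of_projective _) h

/-- The connecting map in degree zero, on morphisms. -/
noncomputable def delta0 {S : ShortComplex (ModuleCat.{u} A)} (hS : S.ShortExact)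
    (Y : ModuleCat.{u} A) : (S.X₁ ⟶ Y) →ₗ[k] Abelian.Ext S.X₃ Y 1 :=
  (delta hS Y 0 1 rfl).comp (Abelian.Ext.linearEquiv₀ (R := k)).symm.toLinearMap

lemma delta0_surjective {S : ShortComplex (ModuleCat.{u} A)} (hS : S.ShortExact)
    (Y : ModuleCat.{u} A) [Projective S.X₂] : Function.Surjective (delta0 (k := k) hS Y) := by
  intro x
  obtain ⟨y, rfl⟩ := delta_surjective (k := k) hS Y 0 1 rfl x
  exact ⟨Abelian.Ext.linearEquiv₀ (R := k) y, by simp [delta0]⟩

lemma delta0_eq_zero {S : ShortComplex (ModuleCat.{u} A)} (hS : S.ShortExact)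
    (Y : ModuleCat.{u} A) (g : S.X₁ ⟶ Y) (h : delta0 (k := k) hS Y g = 0) :
    ∃ g' : S.X₂ ⟶ Y, S.f ≫ g' = g := by
  obtain ⟨x2, hx2⟩ := Abelian.Ext.contravariant_sequence_exact₁ hS Y
    (Abelian.Ext.mk₀ g) (n₁ := 1) (by omega) h
  obtain ⟨y, rfl⟩ := (Abelian.Ext.mk₀_bijective _ _).surjective x2
  rw [Abelian.Ext.mk₀_comp_mk₀] at hx2
  exact ⟨y, (Abelian.Ext.mk₀_bijective _ _).injective hx2⟩

/-- The trivial module as an object. -/
noncomputable def Tr (ε : A →ₐ[k] k) : ModuleCat.{u} A := ModuleCat.of A (triv ε).M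

/-- The underlying additive group is that of `k`. -/
noncomputable def trE (ε : A →ₐ[k] k) : Tr ε ≃+ k := AddEquiv.refl k

lemma trE_smul (ε : A →ₐ[k] k) (a : A) (x : Tr ε) : trE ε (a • x) = ε a * trE ε x := rfl

lemma tr_smul_eq_zero (ε : A →ₐ[k] k) (a : A) (ha : ε a = 0) (x : Tr ε) : a • x = 0 := by
  apply (trE ε).injective
  rw [trE_smul, ha, zero_mul, map_zero]

lemma trE_ksmul (ε : A →ₐ[k] k) (c : k) (x : Tr ε) : trE ε (c • x) = c * trE ε x := by
  rw [← algebraMap_smul A c x, trE_smul, AlgHom.commutes]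
  rfl

/-- The augmentation as a map of `A`-modules. -/
noncomputable def epsA (ε : A →ₐ[k] k) : A →ₗ[A] Tr ε :=
  LinearMap.toSpanSingleton A (Tr ε) ((trE ε).symm 1)

lemma epsA_apply (ε : A →ₐ[k] k) (a : A) : trE ε (epsA ε a) = ε a := by
  rw [epsA, LinearMap.toSpanSingleton_apply, trE_smul, AddEquiv.apply_symm_apply, mul_one]

lemma epsA_surjective (ε : A →ₐ[k] k) : Function.Surjective (epsA ε) := by
  intro x
  refine ⟨algebraMap k A (trE ε x), (trE ε).injective ?_⟩
  rw [epsA_apply, AlgHom.commutes]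
  rfl

lemma mem_ker_epsA (ε : A →ₐ[k] k) (a : A) : a ∈ LinearMap.ker (epsA ε) ↔ ε a = 0 := by
  rw [LinearMap.mem_ker, ← epsA_apply, AddEquiv.map_eq_zero_iff]

variable {ι : Type} [Fintype ι]

/-- Functionals on the augmentation ideal. -/
noncomputable def gc (ε : A →ₐ[k] k) (π : A →ₗ[k] (ι → k))
    (hπ : ∀ a b, π (a * b) = ε a • π b + ε b • π a) (c : ι → k) :
    LinearMap.ker (epsA ε) →ₗ[A] Tr ε where
  toFun x := (trE ε).symm (∑ i, c i * π x.1 i)
  map_add' x y := by
    rw [← map_add]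
    congr 1
    rw [← Finset.sum_add_distrib]
    refine Finset.sum_congr rfl fun i _ => ?_
    rw [Submodule.coe_add, map_add, Pi.add_apply, mul_add]
  map_smul' a x := by
    rw [RingHom.id_apply]
    apply (trE ε).injective
    rw [trE_smul, AddEquiv.apply_symm_apply, AddEquiv.apply_symm_apply, Finset.mul_sum]
    refine Finset.sum_congr rfl fun i _ => ?_
    rw [Submodule.coe_smul, smul_eq_mul, hπ, (mem_ker_epsA ε _).1 x.2, zero_smul, add_zero,
      Pi.smul_apply, smul_eq_mul]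
    ring

lemma gc_apply (ε : A →ₐ[k] k) (π : A →ₗ[k] (ι → k))
    (hπ : ∀ a b, π (a * b) = ε a • π b + ε b • π a) (c : ι → k)
    (x : LinearMap.ker (epsA ε)) : trE ε (gc ε π hπ c x) = ∑ i, c i * π x.1 i := by
  change trE ε ((trE ε).symm (∑ i, c i * π x.1 i)) = _
  rw [AddEquiv.apply_symm_apply]

/-- `c ↦ gc c` as a linear map to morphisms. -/
noncomputable def gcHom (ε : A →ₐ[k] k) (π : A →ₗ[k] (ι → k))
    (hπ : ∀ a b, π (a * b) = ε a • π b + ε b • π a) :
    (ι → k) →ₗ[k] (ModuleCat.of A (LinearMap.ker (epsA ε)) ⟶ Tr ε) where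
  toFun c := ModuleCat.ofHom (gc ε π hπ c)
  map_add' c c' := by
    ext x
    apply (trE ε).injective
    change trE ε (gc ε π hπ (c + c') x) = trE ε (gc ε π hπ c x + gc ε π hπ c' x)
    rw [map_add, gc_apply, gc_apply, gc_apply, ← Finset.sum_add_distrib]
    refine Finset.sum_congr rfl fun i _ => ?_
    rw [Pi.add_apply, add_mul]
  map_smul' t c := by
    ext x
    apply (trE ε).injective
    change trE ε (gc ε π hπ (t • c) x) = trE ε (t • (gc ε π hπ c x))
    rw [trE_ksmul, gc_apply, gc_apply, Finset.mul_sum]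
    refine Finset.sum_congr rfl fun i _ => ?_
    rw [Pi.smul_apply, smul_eq_mul, mul_assoc]

variable [DecidableEq ι]

lemma gcHom_bijective (ε : A →ₐ[k] k) (π : A →ₗ[k] (ι → k))
    (hπ : ∀ a b, π (a * b) = ε a • π b + ε b • π a) (v : ι → A) (hεv : ∀ i, ε (v i) = 0)
    (hπv : ∀ i, π (v i) = Pi.single i 1)
    (hgen : ∀ x : A, ε x = 0 → ∃ c : ι → A, x = ∑ i, c i * v i) :
    Function.Bijective (gcHom ε π hπ) := by
  have hgcv : ∀ (c : ι → k) (i : ι) , trE ε (gc ε π hπ c ⟨v i, (mem_ker_epsA ε _).2 (hεv i)⟩) =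
      c i := by
    intro c i
    rw [gc_apply, hπv]
    simp [Pi.single_apply]
  constructor
  · intro c c' h
    funext i
    rw [← hgcv c i, ← hgcv c' i]
    have h1 : gc ε π hπ c = gc ε π hπ c' := congrArg ModuleCat.Hom.hom h
    rw [h1]
  · intro g
    let w : ι → LinearMap.ker (epsA ε) := fun i => ⟨v i, (mem_ker_epsA ε _).2 (hεv i)⟩
    let c : ι → k := fun i => trE ε (g.hom (w i))
    refine ⟨c, ?_⟩
    have h1 : gc ε π hπ c = g.hom := by
      ext x
      obtain ⟨a, ha⟩ := hgen x.1 ((mem_ker_epsA ε _).1 x.2)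
      have hx : x = ∑ i, a i • w i := by
        apply Subtype.ext
        rw [ha, ← Submodule.subtype_apply, map_sum]
        refine Finset.sum_congr rfl fun i _ => ?_
        rw [map_smul]; rfl
      rw [hx, map_sum, map_sum]
      refine Finset.sum_congr rfl fun i _ => ?_
      rw [map_smul, map_smul]
      congr 1
      apply (trE ε).injective
      rw [hgcv]
    change ModuleCat.ofHom (gc ε π hπ c) = g
    rw [h1]
    rfl

/-- `dim Ext^1(k,k)` is the number of generators. -/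
theorem finrank_ext_one (ε : A →ₐ[k] k) (π : A →ₗ[k] (ι → k))
    (hπ : ∀ a b, π (a * b) = ε a • π b + ε b • π a) (v : ι → A) (hεv : ∀ i, ε (v i) = 0)
    (hπv : ∀ i, π (v i) = Pi.single i 1)
    (hgen : ∀ x : A, ε x = 0 → ∃ c : ι → A, x = ∑ i, c i * v i) :
    Module.finrank k (Abelian.Ext (Tr ε) (Tr ε) 1) = Fintype.card ι := by
  have hS := LinearMap.shortExact_shortComplexKer (epsA_surjective ε)
  let D : (ModuleCat.of A (LinearMap.ker (epsA ε)) ⟶ Tr ε) →ₗ[k]
    Abelian.Ext (Tr ε) (Tr ε) 1 := delta0 (k := k) hS (Tr ε)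
  have hD1 : Function.Surjective D := delta0_surjective (k := k) hS _
  have hD2 : Function.Injective D := by
    rw [← LinearMap.ker_eq_bot, LinearMap.ker_eq_bot']
    intro g hg
    obtain ⟨g', hg'⟩ := delta0_eq_zero (k := k) hS _ g hg
    ext x
    have h1 : g.hom x = g'.hom (x : A) := (LinearMap.congr_fun (congrArg ModuleCat.Hom.hom hg') x).symm
    rw [h1]
    have h2 : (x : A) = (x : A) • (1 : A) := by rw [smul_eq_mul, mul_one]
    have h3 : g'.hom (x : A) = (x : A) • g'.hom (1 : A) := by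
      conv_lhs => rw [h2]
      exact map_smul g'.hom (x : A) (1 : A)
    rw [h3]
    exact tr_smul_eq_zero ε _ ((mem_ker_epsA ε _).1 x.2) _
  have e1 := LinearEquiv.ofBijective D ⟨hD2, hD1⟩
  have e2 := LinearEquiv.ofBijective _ (gcHom_bijective ε π hπ v hεv hπv hgen)
  rw [← (e2.trans e1).finrank_eq, Module.finrank_pi]

end Low

end Pool.Agent.Helper59.BK
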