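import Pool.Agent.Helper59.BKAsm
import Pool.Agent.Helper83.BK.Bridge
import Pool.Agent.Helper83.BK.FromBK

/-! The Betti number inequality for Bloch-Kato Lie algebras. -/

namespace Pool.Agent.Helper59.BK

universe u

open CategoryTheory
open Pool.Agent.Helper83.BK (eb IsQuad RR E2 Triv star_any cy_of_blochKato ext_ineq)

section

variable {k : Type u} [Field k] {L : Type u} [LieRing L] [LieAlgebra k L]

lemma trivialModule_eq : trivialModule k L =
    ModuleCat.of (UniversalEnvelopingAlgebra k L) (Triv (augmentation k L)) := rfl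

lemma subsingleton_of_cd_lt (n : ℕ) (hcd : cohomologicalDimension k L = n) (m : ℕ) (hm : n < m) :
    Subsingleton (cohomology k L m) := by
  by_contra hne
  rw [not_subsingleton_iff_nontrivial] at hne
  have h1 : (m : ℕ∞) ≤ cohomologicalDimension k L :=
    le_iSup₂_of_le (f := fun (i : ℕ) (_ : Nontrivial (cohomology k L i)) => (i : ℕ∞)) m hne le_rfl
  rw [hcd] at h1
  exact absurd (Nat.cast_le.1 h1) (not_le.2 hm)

attribute [local instance 100] LieRing.ofAssociativeRing in
lemma augmentation_iota {d : ℕ} (x : Fin d → L) (v : Fin d → k) :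
    augmentation k L (iota x v) = 0 := by
  change augmentation k L (UniversalEnvelopingAlgebra.ι k (Emap x v)) = 0
  rw [augmentation, UniversalEnvelopingAlgebra.lift_ι_apply]
  rfl

theorem betti_inequality (h2 : ringChar k ≠ 2) (𝓛 : ℕ → Submodule k L) (hgr : IsGradedLie 𝓛)
    (hBK : IsBlochKato 𝓛) (n : ℕ) (hcd : cohomologicalDimension k L = n) :
    0 ≤ ((n : ℤ) - 1) * (betti k L 1 : ℤ) ^ 2 - 2 * (n : ℤ) * (betti k L 2 : ℤ) := by
  have h2' : (2 : k) ≠ 0 := Ring.two_ne_zero h2
  obtain ⟨d, x, hx1, hx2, S, hS1, hS2⟩ := exists_presentation 𝓛 hBK.1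
  cases n with
  | zero =>
    have h1 : betti k L 1 = 0 := by
      have := subsingleton_of_cd_lt 0 hcd 1 (by norm_num)
      exact Module.finrank_zero_of_subsingleton
    rw [h1]
    simp
  | succ n =>
    have hE : Subsingleton (Abelian.Ext (ModuleCat.of (UniversalEnvelopingAlgebra k L)
        (Triv (augmentation k L))) (ModuleCat.of (UniversalEnvelopingAlgebra k L)
        (Triv (augmentation k L))) (n + 2)) :=
      subsingleton_of_cd_lt (n + 1) hcd (n + 2) (by omega)
    have key := ext_ineq h2' (uea_isQuad h2' x hx2 S hS1 hS2) (fun r hr => hr.1)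
      (star_any h2' (Emap x) (cy_of_blochKato h2' hgr hBK x hx1 S hS1 hS2))
      (augmentation k L) (augmentation_iota x) n hE
    have key' : 2 * (n + 1) * betti k L 2 ≤ n * (betti k L 1) ^ 2 := key
    zify at key'
    push_cast
    linarith

end

end Pool.Agent.Helper59.BK
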