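import Pool.Agent.Helper59.BKDefs

/-! Consequences of a quadratic presentation. -/

namespace Pool.Agent.Helper59.BK

universe u v w

section Univ

variable {k : Type u} [Field k] {L : Type v} [LieRing L] [LieAlgebra k L]
  {L' : Type w} [LieRing L'] [LieAlgebra k L'] {ι : Type}

/-- Two Lie homomorphisms which agree on generators are equal. -/
lemma lieHom_eq_of_gens (x : ι → L) (hx : Function.Surjective (FreeLieAlgebra.lift k x))
    (f g : L →ₗ⁅k⁆ L') (h : ∀ i, f (x i) = g (x i)) : f = g := by
  have : f.comp (FreeLieAlgebra.lift k x) = g.comp (FreeLieAlgebra.lift k x) := by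
    apply FreeLieAlgebra.hom_ext
    intro i
    simp [h]
  ext l
  obtain ⟨z, rfl⟩ := hx l
  exact LieHom.congr_fun this z

/-- A Lie subalgebra containing the generators is everything. -/
lemma mem_of_gens (x : ι → L) (hx : Function.Surjective (FreeLieAlgebra.lift k x))
    (B : LieSubalgebra k L) (hB : ∀ i, x i ∈ B) (l : L) : l ∈ B := by
  obtain ⟨z, rfl⟩ := hx l
  let y : ι → B := fun i => ⟨x i, hB i⟩
  have : B.incl.comp (FreeLieAlgebra.lift k y) = FreeLieAlgebra.lift k x := by
    apply FreeLieAlgebra.hom_ext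
    intro i
    simp [y]
  rw [← this]
  exact (FreeLieAlgebra.lift k y z).2

/-- The universal property of a presentation. -/
lemma exists_lieHom (x : ι → L) (hx : Function.Surjective (FreeLieAlgebra.lift k x))
    (S : Set (FreeLieAlgebra k ι))
    (hS : (FreeLieAlgebra.lift k x).ker = LieSubmodule.lieSpan k (FreeLieAlgebra k ι) S)
    (y : ι → L') (hy : ∀ s ∈ S, FreeLieAlgebra.lift k y s = 0) :
    ∃ θ : L →ₗ⁅k⁆ L', ∀ i, θ (x i) = y i := by
  have hker : ∀ z, FreeLieAlgebra.lift k x z = 0 → FreeLieAlgebra.lift k y z = 0 := by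
    intro z hz
    have h1 : LieSubmodule.lieSpan k (FreeLieAlgebra k ι) S ≤ (FreeLieAlgebra.lift k y).ker := by
      rw [LieSubmodule.lieSpan_le]
      intro s hs
      exact LieHom.mem_ker.2 (hy s hs)
    have h2 : z ∈ (FreeLieAlgebra.lift k x).ker := LieHom.mem_ker.2 hz
    rw [hS] at h2
    exact LieHom.mem_ker.1 (h1 h2)
  have hwd : ∀ z z', FreeLieAlgebra.lift k x z = FreeLieAlgebra.lift k x z' →
      FreeLieAlgebra.lift k y z = FreeLieAlgebra.lift k y z' := by
    intro z z' h
    have := hker (z - z') (by rw [map_sub, h, sub_self])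
    rwa [map_sub, sub_eq_zero] at this
  let r := Function.surjInv hx
  have hr : ∀ l, FreeLieAlgebra.lift k x (r l) = l := Function.surjInv_eq hx
  refine ⟨{ toFun := fun l => FreeLieAlgebra.lift k y (r l)
            map_add' := fun a b => ?_
            map_smul' := fun c a => ?_
            map_lie' := fun {a b} => ?_ }, fun i => ?_⟩
  · rw [← map_add]; apply hwd; rw [map_add, hr, hr, hr]
  · simp only [RingHom.id_apply]; rw [← map_smul]; apply hwd; rw [map_smul, hr, hr]
  · rw [← LieHom.map_lie]; apply hwd; rw [LieHom.map_lie, hr, hr, hr]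
  · change FreeLieAlgebra.lift k y (r (x i)) = y i
    rw [← FreeLieAlgebra.lift_of_apply (R := k) y i]
    apply hwd
    rw [hr, FreeLieAlgebra.lift_of_apply]

end Univ

end Pool.Agent.Helper59.BK
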