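import Pool.Agent.Helper59.BKTensorDefs
import Pool.Agent.Helper59.BKExtGen

/-! Nonvanishing of diagonal `Ext`: syzygies `ker (A ⊗ N → N)`. -/

namespace Pool.Agent.Helper59.BK

universe u v

open CategoryTheory TensorProduct

section MulMap

variable (k : Type u) [Field k] (A : Type u) [Ring A] [Algebra k A] (M : Type u)
  [AddCommGroup M] [Module A M] [Module k M] [IsScalarTower k A M]

/-- The multiplication map `A ⊗ M → M`. -/
noncomputable def mulMap : A ⊗[k] M →ₗ[A] M :=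
  TensorProduct.AlgebraTensorModule.lift (LinearMap.toSpanSingleton A (M →ₗ[k] M) LinearMap.id)

lemma mulMap_tmul (a : A) (m : M) : mulMap k A M (a ⊗ₜ m) = a • m := by
  simp [mulMap]

lemma mulMap_surjective : Function.Surjective (mulMap k A M) := fun m =>
  ⟨1 ⊗ₜ m, by simp [mulMap_tmul]⟩

end MulMap

/-- An `A`-module with a compatible `k`-structure, bundled. -/
structure Bun (k : Type u) [Field k] (A : Type u) [Ring A] [Algebra k A] where
  /-- the underlying type -/
  M : Type u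
  [acg : AddCommGroup M]
  [mA : Module A M]
  [mK : Module k M]
  [st : IsScalarTower k A M]

attribute [instance] Bun.acg Bun.mA Bun.mK Bun.st

section Syz

variable {k : Type u} [Field k] {A : Type u} [Ring A] [Algebra k A]

/-- The trivial module `k`. -/
noncomputable def triv (ε : A →ₐ[k] k) : Bun k A :=
  letI : Module A k := Module.compHom k ε.toRingHom
  haveI : IsScalarTower k A k := ⟨fun c a x => by
    change ε (c • a) * x = c * (ε a * x)
    rw [map_smul, smul_eq_mul, mul_assoc]⟩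
  Bun.mk k

/-- The iterated syzygies of the trivial module. -/
noncomputable def N (ε : A →ₐ[k] k) : ℕ → Bun k A
  | 0 => triv ε
  | (n + 1) => Bun.mk (LinearMap.ker (mulMap k A (N ε n).M))

lemma triv_smul (ε : A →ₐ[k] k) (a : A) (x : (triv ε).M) :
    a • x = (show (triv ε).M from (ε a * (show k from x) : k)) := rfl

variable {ι : Type}

/-- auxiliary map -/
noncomputable def qq (π : A →ₗ[k] (ι → k)) {M Z : Type u} [AddCommGroup M] [Module k M]
    [AddCommGroup Z] [Module k Z] (q : M →ₗ[k] Z) : A ⊗[k] M →ₗ[k] (ι → Z) :=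
  TensorProduct.lift (LinearMap.mk₂ k (fun a m i => π a i • q m)
    (by intros; ext; simp [add_smul])
    (by intros; ext; simp [mul_smul])
    (by intros; ext; simp)
    (by intro c m n; ext i; simp only [map_smul, Pi.smul_apply]; rw [smul_comm]))

lemma qq_tmul (π : A →ₗ[k] (ι → k)) {M Z : Type u} [AddCommGroup M] [Module k M]
    [AddCommGroup Z] [Module k Z] (q : M →ₗ[k] Z) (a : A) (m : M) (i : ι) :
    qq π q (a ⊗ₜ m) i = π a i • q m := by
  simp [qq]

lemma qq_smul (ε : A →ₐ[k] k) (π : A →ₗ[k] (ι → k))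
    (hπ : ∀ a b, π (a * b) = ε a • π b + ε b • π a) {M Z : Type u} [AddCommGroup M]
    [Module A M] [Module k M] [IsScalarTower k A M] [AddCommGroup Z] [Module k Z]
    (q : M →ₗ[k] Z) (hq : ∀ (a : A) (m : M), q (a • m) = ε a • q m)
    (a : A) (t : A ⊗[k] M) :
    qq π q (a • t) = ε a • qq π q t + fun i => π a i • q (mulMap k A M t) := by
  induction t using TensorProduct.induction_on with
  | zero => ext i; simp
  | tmul b m =>
    ext i
    rw [TensorProduct.smul_tmul', Pi.add_apply, Pi.smul_apply, qq_tmul, qq_tmul, mulMap_tmul, hq,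
      smul_eq_mul, hπ]
    simp only [Pi.add_apply, Pi.smul_apply, smul_eq_mul, add_smul, mul_smul]
    rw [smul_comm (ε b) (π a i)]
  | add x y hx hy =>
    rw [smul_add, map_add, hx, hy]
    ext i
    simp only [Pi.add_apply, Pi.smul_apply, map_add, smul_add]
    abel

/-- The identification of `k` with the underlying space of the trivial module. -/
noncomputable def trivEquiv (ε : A →ₐ[k] k) : (triv ε).M ≃ₗ[k] k := LinearEquiv.refl k k

lemma trivEquiv_smul (ε : A →ₐ[k] k) (a : A) (x : (triv ε).M) :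
    trivEquiv ε (a • x) = ε a * trivEquiv ε x := rfl

lemma triv_smul_eq_zero (ε : A →ₐ[k] k) (a : A) (ha : ε a = 0) (x : (triv ε).M) :
    a • x = 0 := by
  apply (trivEquiv ε).injective
  rw [trivEquiv_smul, ha, zero_mul, map_zero]

/-- The identification of `k` with the underlying space of the trivial module. -/
noncomputable def nZero (ε : A →ₐ[k] k) : (N ε 0).M ≃ₗ[k] k := LinearEquiv.refl k k

lemma nZero_smul (ε : A →ₐ[k] k) (a : A) (x : (N ε 0).M) :
    nZero ε (a • x) = ε a * nZero ε x := rfl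

lemma nZero_smul_eq_zero (ε : A →ₐ[k] k) (a : A) (ha : ε a = 0) (x : (N ε 0).M) :
    a • x = 0 := by
  apply (nZero ε).injective
  rw [nZero_smul, ha, zero_mul, map_zero]

/-- The inclusion of the `n+1`-st syzygy. -/
noncomputable def incl (ε : A →ₐ[k] k) (n : ℕ) : (N ε (n + 1)).M →ₗ[A] A ⊗[k] (N ε n).M :=
  (LinearMap.ker (mulMap k A (N ε n).M)).subtype

/-- The inclusion of the `n+1`-st syzygy, as a `k`-linear map. -/
noncomputable def inclk (ε : A →ₐ[k] k) (n : ℕ) : (N ε (n + 1)).M →ₗ[k] A ⊗[k] (N ε n).M :=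
  (LinearMap.ker (mulMap k A (N ε n).M)).subtype.restrictScalars k

lemma inclk_apply (ε : A →ₐ[k] k) (n : ℕ) (x : (N ε (n + 1)).M) : inclk ε n x = incl ε n x := rfl

lemma incl_injective (ε : A →ₐ[k] k) (n : ℕ) : Function.Injective (incl ε n) :=
  Submodule.injective_subtype _

lemma mulMap_incl (ε : A →ₐ[k] k) (n : ℕ) (x : (N ε (n + 1)).M) :
    mulMap k A (N ε n).M (incl ε n x) = 0 :=
  LinearMap.mem_ker.1 (Subtype.property
    (show LinearMap.ker (mulMap k A (N ε n).M) from x))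

/-- Lifting a linear map with values in the kernel. -/
noncomputable def liftKer (ε : A →ₐ[k] k) (n : ℕ) {Z : Type u} [AddCommGroup Z] [Module k Z]
    (g : Z →ₗ[k] A ⊗[k] (N ε n).M) (h : ∀ z, mulMap k A (N ε n).M (g z) = 0) :
    Z →ₗ[k] (N ε (n + 1)).M where
  toFun z := (⟨g z, LinearMap.mem_ker.2 (h z)⟩ : LinearMap.ker (mulMap k A (N ε n).M))
  map_add' z z' := Subtype.ext (map_add g z z')
  map_smul' c z := Subtype.ext (map_smul g c z)

lemma incl_liftKer (ε : A →ₐ[k] k) (n : ℕ) {Z : Type u} [AddCommGroup Z] [Module k Z]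
    (g : Z →ₗ[k] A ⊗[k] (N ε n).M) (h : ∀ z, mulMap k A (N ε n).M (g z) = 0) (z : Z) :
    incl ε n (liftKer ε n g h z) = g z := rfl

/-- `T 0 = k`. -/
noncomputable def tZero (k : Type u) [Field k] (ι : Type) : T k ι 0 ≃ₗ[k] k := LinearEquiv.refl k k

/-- `T (n+1) = ι → T n`. -/
noncomputable def tSucc (k : Type u) [Field k] (ι : Type) (n : ℕ) :
    T k ι (n + 1) ≃ₗ[k] (ι → T k ι n) := LinearEquiv.refl k (ι → T k ι n)

/-- The projection of the `n`-th syzygy to the `n`-th tensor power. -/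
noncomputable def q (ε : A →ₐ[k] k) (π : A →ₗ[k] (ι → k)) :
    (n : ℕ) → ((N ε n).M →ₗ[k] T k ι n)
  | 0 => (tZero k ι).symm.toLinearMap.comp (nZero ε).toLinearMap
  | (n + 1) => (tSucc k ι n).symm.toLinearMap.comp ((qq π (q ε π n)).comp (inclk ε n))

lemma q_succ_apply (ε : A →ₐ[k] k) (π : A →ₗ[k] (ι → k)) (n : ℕ) (x : (N ε (n + 1)).M) :
    q ε π (n + 1) x = (tSucc k ι n).symm (qq π (q ε π n) (incl ε n x)) := rfl

lemma q_smul (ε : A →ₐ[k] k) (π : A →ₗ[k] (ι → k))
    (hπ : ∀ a b, π (a * b) = ε a • π b + ε b • π a) (n : ℕ) (a : A) (x : (N ε n).M) :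
    q ε π n (a • x) = ε a • q ε π n x := by
  induction n generalizing a with
  | zero =>
    change (tZero k ι).symm (nZero ε (a • x)) = ε a • (tZero k ι).symm (nZero ε x)
    rw [← map_smul]; rfl
  | succ n ih =>
    have h0 : (fun i => π a i • q ε π n 0) = 0 := by
      funext i
      rw [map_zero, smul_zero]
      rfl
    rw [q_succ_apply, q_succ_apply, map_smul, qq_smul ε π hπ _ ih, mulMap_incl, h0,
      add_zero, map_smul]

end Syz

section Slice

variable {k : Type u} [Field k] {ι : Type} [Fintype ι] {L : Type v} [AddCommGroup L] [Module k L]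

lemma K_slice (β : ι → ι → L) (U : Submodule k (ι → k)) (n : ℕ) (f : T k ι (n + 1))
    (hf : f ∈ K β U (n + 1)) (a : ι) : tSucc k ι n f a ∈ K β U n := by
  cases n with
  | zero => exact Submodule.mem_top
  | succ n => exact hf.1 a (Set.mem_univ a)

/-- Slices of an element of `K`. -/
noncomputable def slice (β : ι → ι → L) (U : Submodule k (ι → k)) (n : ℕ) (a : ι) :
    K β U (n + 1) →ₗ[k] K β U n where
  toFun f := ⟨tSucc k ι n f.1 a, K_slice β U n f.1 f.2 a⟩
  map_add' _ _ := rfl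
  map_smul' _ _ := rfl

lemma slice_val (β : ι → ι → L) (U : Submodule k (ι → k)) (n : ℕ) (a : ι) (f : K β U (n + 1)) :
    (slice β U n a f).1 = tSucc k ι n f.1 a := rfl

lemma slice_anti (β : ι → ι → L) (U : Submodule k (ι → k)) (n : ℕ) (a b : ι)
    (f : K β U (n + 2)) :
    slice β U n b (slice β U (n + 1) a f) = - slice β U n a (slice β U (n + 1) b f) :=
  Subtype.ext (f.2.2.1 a b)

lemma slice_sum (β : ι → ι → L) (U : Submodule k (ι → k)) (n : ℕ)
    (f : K β U (n + 2)) (lam : Module.Dual k L) :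
    ∑ a, ∑ b, lam (β a b) • slice β U n b (slice β U (n + 1) a f) = 0 := by
  apply Subtype.ext
  rw [← Submodule.subtype_apply, map_sum]
  simp only [map_sum, map_smul]
  exact f.2.2.2 lam

end Slice

section Zero

variable {k : Type u} [Field k] {ι : Type} [Fintype ι] {L : Type v} [AddCommGroup L] [Module k L]

lemma sum_tmul_eq_zero {Z : Type u} [AddCommGroup Z] [Module k Z] (β : ι → ι → L)
    (g : ι → ι → Z) (hg : ∀ lam : Module.Dual k L, ∑ a, ∑ b, lam (β a b) • g a b = 0) :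
    ∑ a, ∑ b, β a b ⊗ₜ[k] g a b = 0 := by
  classical
  let b := Module.Basis.ofVectorSpace k L
  apply (TensorProduct.equivFinsuppOfBasisLeft (N := Z) b).injective
  rw [map_zero]
  ext i
  simp only [map_sum, Finsupp.coe_finsetSum, Finset.sum_apply, Finsupp.coe_zero, Pi.zero_apply,
    TensorProduct.equivFinsuppOfBasisLeft_apply_tmul_apply]
  exact hg (b.coord i)

lemma sum_mul_tmul_eq_zero {A : Type u} [Ring A] [Algebra k A] (h2 : (2 : k) ≠ 0)
    {Z : Type u} [AddCommGroup Z] [Module k Z] (β : ι → ι → L)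
    (v : ι → A) (j : L →ₗ[k] A) (hβ : ∀ a b, v a * v b - v b * v a = j (β a b))
    (g : ι → ι → Z) (hg : g ∈ (RR β Z : Submodule k _)) :
    ∑ a, ∑ b, (v a * v b) ⊗ₜ[k] g a b = 0 := by
  set t := ∑ a, ∑ b, (v a * v b) ⊗ₜ[k] g a b with ht
  have h1 : t = - ∑ a, ∑ b, (v b * v a) ⊗ₜ[k] g a b := by
    rw [ht, Finset.sum_comm, ← Finset.sum_neg_distrib]
    refine Finset.sum_congr rfl fun a _ => ?_
    rw [← Finset.sum_neg_distrib]
    refine Finset.sum_congr rfl fun b _ => ?_
    rw [hg.1 b a, TensorProduct.tmul_neg]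
  have h3 : t + t = 0 := by
    nth_rewrite 2 [h1]
    rw [ht, ← sub_eq_add_neg, ← Finset.sum_sub_distrib]
    have : ∀ a, (∑ b, (v a * v b) ⊗ₜ[k] g a b - ∑ b, (v b * v a) ⊗ₜ[k] g a b) =
        ∑ b, (j.rTensor Z) (β a b ⊗ₜ[k] g a b) := by
      intro a
      rw [← Finset.sum_sub_distrib]
      refine Finset.sum_congr rfl fun b _ => ?_
      rw [← TensorProduct.sub_tmul, hβ, LinearMap.rTensor_tmul]
    simp only [this, ← map_sum]
    rw [sum_tmul_eq_zero β g hg.2, map_zero]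
  have h4 : (2 : k) • t = 0 := by rw [two_smul, h3]
  exact (smul_eq_zero.1 h4).resolve_left h2

end Zero

section Main

variable {k : Type u} [Field k] {A : Type u} [Ring A] [Algebra k A]
  {ι : Type} [Fintype ι] [DecidableEq ι] {L : Type v} [AddCommGroup L] [Module k L]

/-- `f ↦ ∑ v_a ⊗ s (f_a)`. -/
noncomputable def bigS (ε : A →ₐ[k] k) (v : ι → A) (β : ι → ι → L) (n : ℕ)
    (s : K β (⊤ : Submodule k (ι → k)) n →ₗ[k] (N ε n).M) :
    K β (⊤ : Submodule k (ι → k)) (n + 1) →ₗ[k] A ⊗[k] (N ε n).M :=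
  ∑ a, (TensorProduct.mk k A (N ε n).M (v a)).comp (s.comp (slice β ⊤ n a))

omit [DecidableEq ι] in
lemma bigS_apply (ε : A →ₐ[k] k) (v : ι → A) (β : ι → ι → L) (n : ℕ)
    (s : K β (⊤ : Submodule k (ι → k)) n →ₗ[k] (N ε n).M)
    (f : K β (⊤ : Submodule k (ι → k)) (n + 1)) :
    bigS ε v β n s f = ∑ a, v a ⊗ₜ s (slice β ⊤ n a f) := by
  simp [bigS]

/-- The next section. -/
noncomputable def nextS (ε : A →ₐ[k] k) (v : ι → A) (β : ι → ι → L) (n : ℕ)
    (s : K β (⊤ : Submodule k (ι → k)) n →ₗ[k] (N ε n).M)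
    (h : ∀ f, mulMap k A (N ε n).M (bigS ε v β n s f) = 0) :
    K β (⊤ : Submodule k (ι → k)) (n + 1) →ₗ[k] (N ε (n + 1)).M :=
  liftKer ε n (bigS ε v β n s) h

omit [DecidableEq ι] in
lemma incl_nextS (ε : A →ₐ[k] k) (v : ι → A) (β : ι → ι → L) (n : ℕ)
    (s : K β (⊤ : Submodule k (ι → k)) n →ₗ[k] (N ε n).M)
    (h : ∀ f, mulMap k A (N ε n).M (bigS ε v β n s f) = 0)
    (f : K β (⊤ : Submodule k (ι → k)) (n + 1)) :
    incl ε n (nextS ε v β n s h f) = ∑ a, v a ⊗ₜ s (slice β ⊤ n a f) := by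
  rw [nextS, incl_liftKer, bigS_apply]

lemma q_nextS (ε : A →ₐ[k] k) (π : A →ₗ[k] (ι → k)) (v : ι → A)
    (hπv : ∀ i, π (v i) = Pi.single i 1) (β : ι → ι → L) (n : ℕ)
    (s : K β (⊤ : Submodule k (ι → k)) n →ₗ[k] (N ε n).M) (hs : ∀ f, q ε π n (s f) = f.1)
    (h : ∀ f, mulMap k A (N ε n).M (bigS ε v β n s f) = 0)
    (f : K β (⊤ : Submodule k (ι → k)) (n + 1)) :
    q ε π (n + 1) (nextS ε v β n s h f) = f.1 := by
  rw [q_succ_apply, incl_nextS, map_sum, LinearEquiv.symm_apply_eq]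
  funext i
  rw [Finset.sum_apply]
  have : ∀ a, qq π (q ε π n) (v a ⊗ₜ[k] s (slice β ⊤ n a f)) i =
      (Pi.single a (1 : k) : ι → k) i • tSucc k ι n f.1 a := by
    intro a
    rw [qq_tmul, hs, hπv, slice_val]
  simp only [this]
  rw [Finset.sum_eq_single i]
  · simp
  · intro b _ hb
    rw [Pi.single_eq_of_ne (Ne.symm hb), zero_smul]
  · intro h; exact absurd (Finset.mem_univ i) h

lemma exists_s (h2 : (2 : k) ≠ 0) (ε : A →ₐ[k] k) (π : A →ₗ[k] (ι → k))
    (v : ι → A) (hεv : ∀ i, ε (v i) = 0) (hπv : ∀ i, π (v i) = Pi.single i 1)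
    (β : ι → ι → L) (j : L →ₗ[k] A) (hβ : ∀ a b, v a * v b - v b * v a = j (β a b)) (n : ℕ) :
    ∃ (s : K β (⊤ : Submodule k (ι → k)) n →ₗ[k] (N ε n).M)
      (_ : ∀ f, mulMap k A (N ε n).M (bigS ε v β n s f) = 0),
      (∀ f, q ε π n (s f) = f.1) := by
  induction n with
  | zero =>
    refine ⟨(nZero ε).symm.toLinearMap.comp ((tZero k ι).toLinearMap.comp
      (Submodule.subtype _)), ?_, fun f => rfl⟩
    intro f
    rw [bigS_apply, map_sum]
    refine Finset.sum_eq_zero fun a _ => ?_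
    rw [mulMap_tmul]
    exact nZero_smul_eq_zero ε _ (hεv a) _
  | succ n ih =>
    obtain ⟨s, hs1, hs2⟩ := ih
    refine ⟨nextS ε v β n s hs1, ?_, q_nextS ε π v hπv β n s hs2 hs1⟩
    intro f
    rw [bigS_apply, map_sum]
    apply incl_injective ε n
    rw [map_sum, map_zero]
    have h1 : ∀ a, incl ε n (mulMap k A (N ε (n+1)).M (v a ⊗ₜ[k] nextS ε v β n s hs1
        (slice β ⊤ (n + 1) a f))) =
          ∑ b, (v a * v b) ⊗ₜ s (slice β ⊤ n b (slice β ⊤ (n + 1) a f)) := by
      intro a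
      rw [mulMap_tmul, map_smul, incl_nextS, Finset.smul_sum]
      rfl
    simp only [h1]
    apply sum_mul_tmul_eq_zero h2 β v j hβ (fun a b => s (slice β ⊤ n b (slice β ⊤ (n + 1) a f)))
    refine ⟨fun a b => ?_, fun lam => ?_⟩
    · change s _ = - s _
      rw [slice_anti, map_neg]
    · have : ∀ a b, lam (β a b) • s (slice β ⊤ n b (slice β ⊤ (n + 1) a f)) =
          s (lam (β a b) • (slice β ⊤ n b (slice β ⊤ (n + 1) a f))) := by
        intro a b; rw [map_smul]
      simp only [this, ← map_sum]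
      rw [slice_sum, map_zero]

/-- If `Ext^{m+1}(k,k) = 0` then `K_{m+1} = 0`. -/
theorem K_eq_bot_of_ext (h2 : (2 : k) ≠ 0) (ε : A →ₐ[k] k) (π : A →ₗ[k] (ι → k))
    (hπ : ∀ a b, π (a * b) = ε a • π b + ε b • π a)
    (v : ι → A) (hεv : ∀ i, ε (v i) = 0) (hπv : ∀ i, π (v i) = Pi.single i 1)
    (β : ι → ι → L) (j : L →ₗ[k] A) (hβ : ∀ a b, v a * v b - v b * v a = j (β a b)) (m : ℕ)
    (h : Subsingleton (Abelian.Ext (ModuleCat.of A (triv ε).M) (ModuleCat.of A (triv ε).M)
      (m + 1))) :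
    K β (⊤ : Submodule k (ι → k)) (m + 1) = ⊥ := by
  have hshift : ∀ jj i : ℕ, i + jj = m → Subsingleton (Abelian.Ext (ModuleCat.of A (N ε jj).M)
      (ModuleCat.of A (triv ε).M) (i + 1)) := by
    intro jj
    induction jj with
    | zero => intro i hi; obtain rfl : i = m := by omega
              exact h
    | succ jj ih =>
      intro i hi
      exact ext_shift (mulMap k A (N ε jj).M) (mulMap_surjective k A _) i (ih (i + 1) (by omega))
  have h1 := hshift m 0 (by omega)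
  obtain ⟨s, hs1, hs2⟩ := exists_s h2 ε π v hεv hπv β j hβ m
  rw [Submodule.eq_bot_iff]
  intro f hf
  by_contra hne
  obtain ⟨φ, hφ⟩ := (Module.forall_dual_apply_eq_zero_iff k f).not.2 hne |> not_forall.1
  apply hφ
  -- the linear functional
  let g : (N ε (m + 1)).M →ₗ[A] (triv ε).M :=
    { toFun := fun x => (trivEquiv ε).symm (φ (q ε π (m + 1) x))
      map_add' := fun x y => by rw [map_add, map_add, map_add]
      map_smul' := fun a x => by
        rw [q_smul ε π hπ (m + 1) a x, map_smul]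
        rfl }
  obtain ⟨g', hg'⟩ := ext_one (mulMap k A (N ε m).M) (mulMap_surjective k A _) h1 g
  have h3 : g' (incl ε m (nextS ε v β m s hs1 ⟨f, hf⟩)) = g (nextS ε v β m s hs1 ⟨f, hf⟩) :=
    hg' (nextS ε v β m s hs1 ⟨f, hf⟩)
  have h4 : g (nextS ε v β m s hs1 ⟨f, hf⟩) = (trivEquiv ε).symm (φ f) := by
    change (trivEquiv ε).symm (φ (q ε π (m + 1) (nextS ε v β m s hs1 ⟨f, hf⟩))) = _
    rw [q_nextS ε π v hπv β m s hs2 hs1]
  have h5 : g' (incl ε m (nextS ε v β m s hs1 ⟨f, hf⟩)) = 0 := by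
    rw [incl_nextS, map_sum]
    refine Finset.sum_eq_zero fun a _ => ?_
    have : v a ⊗ₜ[k] s (slice β ⊤ m a ⟨f, hf⟩) = v a • (1 ⊗ₜ[k] s (slice β ⊤ m a ⟨f, hf⟩)) := by
      rw [TensorProduct.smul_tmul', smul_eq_mul, mul_one]
    rw [this, map_smul]
    exact triv_smul_eq_zero ε _ (hεv a) _
  rw [h5, h4] at h3
  exact (LinearEquiv.map_eq_zero_iff _).1 h3.symm

end Main

end Pool.Agent.Helper59.BK
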