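import Mathlib

/-!
Tensor-level bookkeeping for the Betti number inequality (MP_7e1e73_al).
`V` has a basis indexed by `ι`; `V ⊗ Z` is represented by functions `ι → Z`.
`β a b` is the bracket of the basis vectors `a` and `b`.
-/

namespace Pool.Agent.Helper59.BK

universe u v

variable {k : Type u} [Field k] {ι : Type} [Fintype ι] {L : Type v} [AddCommGroup L] [Module k L]

/-- `R ⊗ Z` inside `V ⊗ V ⊗ Z`: antisymmetric tensors killed by the bracket. -/
def RR (β : ι → ι → L) (Z : Type*) [AddCommGroup Z] [Module k Z] :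
    Submodule k (ι → ι → Z) where
  carrier := {f | (∀ a b, f a b = - f b a) ∧
    ∀ lam : Module.Dual k L, ∑ a, ∑ b, lam (β a b) • f a b = 0}
  zero_mem' := by simp
  add_mem' := by
    rintro f g ⟨hf1, hf2⟩ ⟨hg1, hg2⟩
    refine ⟨fun a b => ?_, fun lam => ?_⟩
    · simp only [Pi.add_apply]; rw [hf1 a b, hg1 a b]; abel
    · simp only [Pi.add_apply, smul_add, Finset.sum_add_distrib, hf2 lam, hg2 lam, add_zero]
  smul_mem' := by
    rintro c f ⟨hf1, hf2⟩
    refine ⟨fun a b => ?_, fun lam => ?_⟩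
    · simp only [Pi.smul_apply]; rw [hf1 a b, smul_neg]
    · have : ∀ a b, lam (β a b) • (c • f) a b = c • (lam (β a b) • f a b) := by
        intro a b; simp only [Pi.smul_apply]; rw [smul_comm]
      simp only [this, ← Finset.smul_sum, hf2 lam, smul_zero]

/-- The tensor powers `T n = V ⊗ ... ⊗ V`. -/
def T (k : Type u) (ι : Type) : ℕ → Type u
  | 0 => k
  | (n + 1) => ι → T k ι n

noncomputable instance instAddCommGroupT (k : Type u) [Field k] (ι : Type) :
    (n : ℕ) → AddCommGroup (T k ι n)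
  | 0 => inferInstanceAs (AddCommGroup k)
  | (n + 1) => letI := instAddCommGroupT k ι n; inferInstanceAs (AddCommGroup (ι → T k ι n))

noncomputable instance instModuleT (k : Type u) [Field k] (ι : Type) :
    (n : ℕ) → Module k (T k ι n)
  | 0 => inferInstanceAs (Module k k)
  | (n + 1) => letI := instModuleT k ι n; inferInstanceAs (Module k (ι → T k ι n))

/-- `K n (U)`: the diagonal part of `Ext` (Koszul dual coalgebra), i.e. tensors in `T n` all of
whose adjacent pairs of slots are relations, with slots in `U`. -/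
noncomputable def K (β : ι → ι → L) (U : Submodule k (ι → k)) :
    (n : ℕ) → Submodule k (T k ι n)
  | 0 => ⊤
  | 1 => U
  | (n + 2) => (Submodule.pi Set.univ (fun _ : ι => K β U (n + 1))) ⊓ RR β (T k ι n)

/-- The cubic condition `C_1(U)`: `(V ⊗ V ⊗ U) ∩ (R ⊗ V + V ⊗ R) ⊆ R ⊗ U + V ⊗ K_2(U)`. -/
def C1 (β : ι → ι → L) (U : Submodule k (ι → k)) : Prop :=
  ∀ z τ σ : ι → ι → ι → k, z = τ + σ → τ ∈ (RR β (ι → k) : Submodule k _) →
    (∀ a, σ a ∈ (RR β k : Submodule k _)) → (∀ a b, z a b ∈ U) →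
    ∃ Y W : ι → ι → ι → k, z = Y + W ∧ Y ∈ (RR β (ι → k) : Submodule k _) ∧
      (∀ a b, Y a b ∈ U) ∧ ∀ a, W a ∈ (RR β k : Submodule k _) ∧ ∀ b, W a b ∈ U

end Pool.Agent.Helper59.BK
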