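import Pool.Agent.Helper59.BKPres
import Pool.Agent.Helper83.BK.StarLie
import Pool.Agent.Helper83.BK.QuadAlg

/-! The universal enveloping algebra of a quadratic Lie algebra is a quadratic algebra. -/

namespace Pool.Agent.Helper59.BK

universe u v

open Pool.Agent.Helper83.BK (eb IsQuad RR E2)

section

variable {k : Type u} [Field k] {d : ℕ} {L : Type u} [LieRing L] [LieAlgebra k L]

/-- The linear map `k^d → L` attached to a family. -/
noncomputable def Emap (x : Fin d → L) : (Fin d → k) →ₗ[k] L := Fintype.linearCombination k x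

lemma Emap_apply (x : Fin d → L) (c : Fin d → k) : Emap x c = ∑ i, c i • x i := rfl

lemma Emap_eb (x : Fin d → L) (i : Fin d) : Emap x (eb k d i) = x i := by
  rw [Emap_apply]
  simp [eb, Pi.single_apply]

attribute [local instance 100] LieRing.ofAssociativeRing

/-- The generators of the enveloping algebra. -/
noncomputable def iota (x : Fin d → L) : (Fin d → k) →ₗ[k] UniversalEnvelopingAlgebra k L :=
  ((UniversalEnvelopingAlgebra.ι k : L →ₗ⁅k⁆ UniversalEnvelopingAlgebra k L) :
    L →ₗ[k] UniversalEnvelopingAlgebra k L).comp (Emap x)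

lemma iota_eb (x : Fin d → L) (i : Fin d) :
    iota x (eb k d i) = UniversalEnvelopingAlgebra.ι k (x i) := by
  change UniversalEnvelopingAlgebra.ι k (Emap x (eb k d i)) = _
  rw [Emap_eb]

lemma uea_rel (h2 : (2 : k) ≠ 0) (x : Fin d → L) (q : Fin d → Fin d → k) (hq : q ∈ RR (Emap x)) :
    ∑ i, iota x (eb k d i) * iota x (q i) = 0 := by
  have h1 : ∀ i, iota x (q i) = ∑ j, q i j • UniversalEnvelopingAlgebra.ι k (x j) := by
    intro i
    change UniversalEnvelopingAlgebra.ι k (Emap x (q i)) = _
    rw [Emap_apply]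
    change ((UniversalEnvelopingAlgebra.ι k : L →ₗ⁅k⁆ UniversalEnvelopingAlgebra k L) :
      L →ₗ[k] UniversalEnvelopingAlgebra k L) _ = _
    rw [map_sum]
    refine Finset.sum_congr rfl fun j _ => ?_
    rw [map_smul]
    rfl
  set t := ∑ i, iota x (eb k d i) * iota x (q i) with ht
  have e1 : t = ∑ i, ∑ j, q i j • (UniversalEnvelopingAlgebra.ι k (x i) *
      UniversalEnvelopingAlgebra.ι k (x j)) := by
    rw [ht]
    refine Finset.sum_congr rfl fun i _ => ?_
    rw [h1, iota_eb, Finset.mul_sum]
    refine Finset.sum_congr rfl fun j _ => ?_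
    rw [mul_smul_comm]
  have e2 : t = - ∑ i, ∑ j, q i j • (UniversalEnvelopingAlgebra.ι k (x j) *
      UniversalEnvelopingAlgebra.ι k (x i)) := by
    rw [e1, Finset.sum_comm, ← Finset.sum_neg_distrib]
    refine Finset.sum_congr rfl fun i _ => ?_
    rw [← Finset.sum_neg_distrib]
    refine Finset.sum_congr rfl fun j _ => ?_
    rw [hq.1 j i, neg_smul]
  have e3 : t + t = 0 := by
    nth_rewrite 2 [e2]
    rw [e1, ← sub_eq_add_neg, ← Finset.sum_sub_distrib]
    have : ∀ i, (∑ j, q i j • (UniversalEnvelopingAlgebra.ι k (x i) *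
        UniversalEnvelopingAlgebra.ι k (x j)) - ∑ j, q i j • (UniversalEnvelopingAlgebra.ι k (x j) *
        UniversalEnvelopingAlgebra.ι k (x i))) =
        ∑ j, q i j • UniversalEnvelopingAlgebra.ι k ⁅x i, x j⁆ := by
      intro i
      rw [← Finset.sum_sub_distrib]
      refine Finset.sum_congr rfl fun j _ => ?_
      rw [← smul_sub, LieHom.map_lie, LieRing.of_associative_ring_bracket]
    simp only [this]
    have h3 := hq.2
    rw [Pool.Agent.Helper83.BK.E2_apply] at h3
    simp only [Emap_eb] at h3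
    have h4 := congrArg ((UniversalEnvelopingAlgebra.ι k : L →ₗ⁅k⁆ UniversalEnvelopingAlgebra k L) :
      L →ₗ[k] UniversalEnvelopingAlgebra k L) h3
    simp only [map_sum, map_smul, map_zero] at h4
    exact h4
  have e4 : (2 : k) • t = 0 := by rw [two_smul, e3]
  exact (smul_eq_zero.1 e4).resolve_left h2

/-- The enveloping algebra is generated by `L`. -/
lemma uea_adjoin (B : Subalgebra k (UniversalEnvelopingAlgebra k L))
    (hB : ∀ l : L, UniversalEnvelopingAlgebra.ι k l ∈ B) : B = ⊤ := by
  let f : L →ₗ⁅k⁆ B :=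
    { toFun := fun l => ⟨UniversalEnvelopingAlgebra.ι k l, hB l⟩
      map_add' := fun a b => Subtype.ext (map_add (UniversalEnvelopingAlgebra.ι k :
        L →ₗ⁅k⁆ UniversalEnvelopingAlgebra k L) a b)
      map_smul' := fun c a => Subtype.ext (map_smul (UniversalEnvelopingAlgebra.ι k :
        L →ₗ⁅k⁆ UniversalEnvelopingAlgebra k L) c a)
      map_lie' := fun {a b} => Subtype.ext (LieHom.map_lie (UniversalEnvelopingAlgebra.ι k :
        L →ₗ⁅k⁆ UniversalEnvelopingAlgebra k L) a b) }
  have h : B.val.comp (UniversalEnvelopingAlgebra.lift k f) = AlgHom.id k _ := by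
    apply UniversalEnvelopingAlgebra.hom_ext
    ext l
    change B.val (UniversalEnvelopingAlgebra.lift k f (UniversalEnvelopingAlgebra.ι k l)) =
      UniversalEnvelopingAlgebra.ι k l
    rw [UniversalEnvelopingAlgebra.lift_ι_apply]
    rfl
  rw [eq_top_iff]
  intro a _
  have h1 : B.val (UniversalEnvelopingAlgebra.lift k f a) = a := by
    change (B.val.comp (UniversalEnvelopingAlgebra.lift k f)) a = a
    rw [h]; rfl
  rw [← h1]
  exact (UniversalEnvelopingAlgebra.lift k f a).2

lemma uea_gen (x : Fin d → L) (hx : Function.Surjective (FreeLieAlgebra.lift k x)) :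
    Algebra.adjoin k (Set.range (iota (k := k) x)) = ⊤ := by
  apply uea_adjoin
  let B := Algebra.adjoin k (Set.range (iota (k := k) x))
  let C : LieSubalgebra k L :=
    { carrier := {l | UniversalEnvelopingAlgebra.ι k l ∈ B}
      add_mem' := fun {a b} ha hb => by
        change UniversalEnvelopingAlgebra.ι k (a + b) ∈ B
        rw [map_add]
        exact add_mem ha hb
      zero_mem' := by
        change UniversalEnvelopingAlgebra.ι k 0 ∈ B
        rw [map_zero]
        exact zero_mem B
      smul_mem' := fun c a ha => by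
        change UniversalEnvelopingAlgebra.ι k (c • a) ∈ B
        rw [map_smul]
        exact B.smul_mem ha c
      lie_mem' := fun {a b} ha hb => by
        change UniversalEnvelopingAlgebra.ι k ⁅a, b⁆ ∈ B
        rw [LieHom.map_lie, LieRing.of_associative_ring_bracket]
        exact sub_mem (mul_mem ha hb) (mul_mem hb ha) }
  have hC : ∀ i, x i ∈ C := fun i => by
    change UniversalEnvelopingAlgebra.ι k (x i) ∈ B
    rw [← iota_eb]
    exact Algebra.subset_adjoin ⟨_, rfl⟩
  exact fun l => mem_of_gens x hx C hC l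

lemma uea_up (x : Fin d → L) (hx : Function.Surjective (FreeLieAlgebra.lift k x))
    (S : Set (FreeLieAlgebra k (Fin d)))
    (hS1 : S ⊆ (Submodule.span k {r : FreeLieAlgebra k (Fin d) |
        ∃ i j : Fin d, r = ⁅FreeLieAlgebra.of k i, FreeLieAlgebra.of k j⁆} :
          Set (FreeLieAlgebra k (Fin d))))
    (hS2 : (FreeLieAlgebra.lift k x).ker = LieSubmodule.lieSpan k (FreeLieAlgebra k (Fin d)) S)
    (A' : Type u) [Ring A'] [Algebra k A'] (a : Fin d → A')
    (ha : ∀ q ∈ RR (Emap (k := k) x), ∑ i, ∑ j, q i j • (a i * a j) = 0) :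
    ∃ φ : UniversalEnvelopingAlgebra k L →ₐ[k] A', ∀ i, φ (iota x (eb k d i)) = a i := by
  have key : ∀ s ∈ S, FreeLieAlgebra.lift k a s = 0 := by
    intro s hs
    have h0 : FreeLieAlgebra.lift k x s = 0 := by
      have : s ∈ (FreeLieAlgebra.lift k x).ker := by
        rw [hS2]
        exact LieSubmodule.subset_lieSpan hs
      exact LieHom.mem_ker.1 this
    have h1 : {r : FreeLieAlgebra k (Fin d) |
        ∃ i j : Fin d, r = ⁅FreeLieAlgebra.of k i, FreeLieAlgebra.of k j⁆} =
        Set.range (fun p : Fin d × Fin d =>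
          (⁅FreeLieAlgebra.of k p.1, FreeLieAlgebra.of k p.2⁆ : FreeLieAlgebra k (Fin d))) := by
      ext r
      constructor
      · rintro ⟨i, j, rfl⟩; exact ⟨(i, j), rfl⟩
      · rintro ⟨⟨i, j⟩, rfl⟩; exact ⟨i, j, rfl⟩
    have h2 := hS1 hs
    rw [h1] at h2
    obtain ⟨c, hc⟩ := (Submodule.mem_span_range_iff_exists_fun k).1 h2
    have h3 : ∑ i, ∑ j, c (i, j) • ⁅x i, x j⁆ = 0 := by
      rw [← h0, ← hc, Fintype.sum_prod_type]
      have : ∀ (z : FreeLieAlgebra k (Fin d)), FreeLieAlgebra.lift k x z =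
        ((FreeLieAlgebra.lift k x : FreeLieAlgebra k (Fin d) →ₗ⁅k⁆ L) :
          FreeLieAlgebra k (Fin d) →ₗ[k] L) z := fun z => rfl
      rw [this, map_sum]
      refine Finset.sum_congr rfl fun i _ => ?_
      rw [map_sum]
      refine Finset.sum_congr rfl fun j _ => ?_
      rw [map_smul, ← this, LieHom.map_lie, FreeLieAlgebra.lift_of_apply,
        FreeLieAlgebra.lift_of_apply]
    have h4 : FreeLieAlgebra.lift k a s = ∑ i, ∑ j, c (i, j) • (a i * a j - a j * a i) := by
      rw [← hc, Fintype.sum_prod_type]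
      have : ∀ (z : FreeLieAlgebra k (Fin d)), FreeLieAlgebra.lift k a z =
        ((FreeLieAlgebra.lift k a : FreeLieAlgebra k (Fin d) →ₗ⁅k⁆ A') :
          FreeLieAlgebra k (Fin d) →ₗ[k] A') z := fun z => rfl
      rw [this, map_sum]
      refine Finset.sum_congr rfl fun i _ => ?_
      rw [map_sum]
      refine Finset.sum_congr rfl fun j _ => ?_
      rw [map_smul, ← this, LieHom.map_lie, FreeLieAlgebra.lift_of_apply,
        FreeLieAlgebra.lift_of_apply, LieRing.of_associative_ring_bracket]
    let q : Fin d → Fin d → k := fun i j => c (i, j) - c (j, i)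
    have hq : q ∈ RR (Emap (k := k) x) := by
      refine ⟨fun i j => by simp [q], ?_⟩
      rw [Pool.Agent.Helper83.BK.E2_apply]
      simp only [Emap_eb]
      have e1 : ∀ i j, q i j • ⁅x i, x j⁆ = c (i, j) • ⁅x i, x j⁆ + c (j, i) • ⁅x j, x i⁆ := by
        intro i j
        rw [← lie_skew (x i) (x j)]
        simp only [q, sub_smul, smul_neg]
        abel
      simp only [e1, Finset.sum_add_distrib]
      rw [h3, zero_add, Finset.sum_comm, h3]
    have h5 := ha q hq
    rw [h4, ← h5]
    have e2 : ∀ i j, q i j • (a i * a j) = c (i, j) • (a i * a j) - c (j, i) • (a i * a j) := by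
      intro i j
      simp only [q, sub_smul]
    simp only [e2, smul_sub, Finset.sum_sub_distrib]
    congr 1
    rw [Finset.sum_comm]
  obtain ⟨θ, hθ⟩ := exists_lieHom x hx S hS2 a key
  refine ⟨UniversalEnvelopingAlgebra.lift k θ, fun i => ?_⟩
  rw [iota_eb, UniversalEnvelopingAlgebra.lift_ι_apply, hθ]

/-- The universal enveloping algebra of a quadratic Lie algebra is a quadratic algebra. -/
theorem uea_isQuad (h2 : (2 : k) ≠ 0) (x : Fin d → L)
    (hx : Function.Surjective (FreeLieAlgebra.lift k x))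
    (S : Set (FreeLieAlgebra k (Fin d)))
    (hS1 : S ⊆ (Submodule.span k {r : FreeLieAlgebra k (Fin d) |
        ∃ i j : Fin d, r = ⁅FreeLieAlgebra.of k i, FreeLieAlgebra.of k j⁆} :
          Set (FreeLieAlgebra k (Fin d))))
    (hS2 : (FreeLieAlgebra.lift k x).ker = LieSubmodule.lieSpan k (FreeLieAlgebra k (Fin d)) S) :
    IsQuad (iota x) (RR (Emap (k := k) x)) where
  rel := uea_rel h2 x
  gen := uea_gen x hx
  up := uea_up x hx S hS1 hS2

end

end Pool.Agent.Helper59.BK
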